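import Mathlib

set_option autoImplicit false

namespace Pool.Agent.Helper42_Binom

open Nat

/-- Sum of the base `b` digits of `n`. -/
def ds (b n : ℕ) : ℕ := (b.digits n).sum

theorem ds_zero (b : ℕ) : ds b 0 = 0 := by simp [ds]

theorem ds_rec (b n : ℕ) (hb : 2 ≤ b) : ds b n = n % b + ds b (n / b) := by
  rcases Nat.eq_zero_or_pos n with rfl | hn
  · simp [ds]
  · unfold ds
    rw [Nat.digits_def' (by omega) hn]
    simp

theorem ds_mul_add (b m r : ℕ) (hb : 2 ≤ b) (hr : r < b) : ds b (b * m + r) = r + ds b m := by
  rw [ds_rec b _ hb]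
  have h1 : (b * m + r) % b = r := by
    rw [Nat.mul_add_mod, Nat.mod_eq_of_lt hr]
  have h2 : (b * m + r) / b = m := by
    rw [Nat.mul_add_div (by omega), Nat.div_eq_of_lt hr, add_zero]
  rw [h1, h2]

theorem ds_mul (b m : ℕ) (hb : 2 ≤ b) : ds b (b * m) = ds b m := by
  have := ds_mul_add b m 0 hb (by omega)
  simpa using this

theorem ds_add_pow_mul (b : ℕ) (hb : 2 ≤ b) : ∀ (a x y : ℕ), x < b ^ a →
    ds b (x + b ^ a * y) = ds b x + ds b y := by
  intro a
  induction a with
  | zero =>
    intro x y hx
    have : x = 0 := by simpa using hx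
    subst this
    simp [ds_zero]
  | succ a ih =>
    intro x y hx
    have hx' : x / b < b ^ a := by
      rw [Nat.div_lt_iff_lt_mul (by omega)]
      rwa [pow_succ] at hx
    have e : x + b ^ (a + 1) * y = b * (x / b + b ^ a * y) + x % b := by
      have := Nat.div_add_mod x b
      rw [pow_succ]
      nlinarith [this]
    rw [e, ds_mul_add b _ _ hb (Nat.mod_lt _ (by omega)), ih _ _ hx', ds_rec b x hb]
    ring

theorem ds_le (b n : ℕ) : ds b n ≤ n := Nat.digit_sum_le b n

theorem legendre (p n : ℕ) [Fact p.Prime] :
    (p - 1) * padicValNat p (n !) + ds p n = n := by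
  have h := sub_one_mul_padicValNat_factorial (p := p) n
  have h2 := ds_le p n
  unfold ds at *
  omega

theorem ds_choose (p a b : ℕ) [Fact p.Prime] :
    (p - 1) * padicValNat p ((a + b).choose a) + ds p (a + b) = ds p a + ds p b := by
  have hfac : (a + b).choose a * a ! * b ! = (a + b)! := by
    have := Nat.choose_mul_factorial_mul_factorial (Nat.le_add_right a b)
    simpa using this
  have hc : (a + b).choose a ≠ 0 := (Nat.choose_pos (Nat.le_add_right a b)).ne'
  have hv : padicValNat p ((a + b).choose a) + padicValNat p (a !) + padicValNat p (b !)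
      = padicValNat p ((a + b)!) := by
    rw [← hfac, padicValNat.mul (mul_ne_zero hc (factorial_ne_zero _)) (factorial_ne_zero _),
      padicValNat.mul hc (factorial_ne_zero _)]
  have h1 := legendre p a
  have h2 := legendre p b
  have h3 := legendre p (a + b)
  have h4 : (p - 1) * padicValNat p ((a + b).choose a) + (p - 1) * padicValNat p (a !)
      + (p - 1) * padicValNat p (b !) = (p - 1) * padicValNat p ((a + b)!) := by
    rw [← hv]; ring
  omega

theorem ds_add_le (p a b : ℕ) [Fact p.Prime] : ds p (a + b) ≤ ds p a + ds p b := by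
  have := ds_choose p a b
  omega

theorem ds_pos (b n : ℕ) (hb : 2 ≤ b) (hn : 0 < n) : 0 < ds b n := by
  induction n using Nat.strong_induction_on with
  | _ n ih =>
    rw [ds_rec b n hb]
    rcases Nat.eq_zero_or_pos (n % b) with h | h
    · have hdiv : 0 < n / b := by
        have := Nat.div_add_mod n b
        rcases Nat.eq_zero_or_pos (n / b) with h0 | h0
        · rw [h, h0] at this; simp at this; omega
        · exact h0
      have := ih (n / b) (Nat.div_lt_self hn (by omega)) hdiv
      omega
    · omega

/-- binary digit sum one iff power of two -/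
theorem ds_two_eq_one (n : ℕ) : ds 2 n = 1 ↔ ∃ j : ℕ, n = 2 ^ j := by
  constructor
  · induction n using Nat.strong_induction_on with
    | _ n ih =>
      intro h
      rcases Nat.eq_zero_or_pos n with rfl | hn
      · simp [ds_zero] at h
      · rw [ds_rec 2 n le_rfl] at h
        rcases Nat.eq_zero_or_pos (n / 2) with h0 | h0
        · refine ⟨0, ?_⟩
          simp
          omega
        · have hp := ds_pos 2 (n / 2) le_rfl h0
          have h1 : ds 2 (n / 2) = 1 := by omega
          obtain ⟨j, hj⟩ := ih (n / 2) (by omega) h1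
          refine ⟨j + 1, ?_⟩
          rw [pow_succ, ← hj]
          omega
  · rintro ⟨j, rfl⟩
    have := ds_add_pow_mul 2 le_rfl j 0 1 (by positivity)
    simp [ds_zero] at this
    rw [this]
    simp [ds]

end Pool.Agent.Helper42_Binom
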