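import Mathlib
import Pool.Agent.Helper42_Binom.Digits

set_option autoImplicit false

namespace Pool.Agent.Helper42_Binom

open Nat

/-- `tt k = binom(6k,3k) * binom(3k,k)`. -/
def tt (k : ℕ) : ℕ := (6 * k).choose (3 * k) * (3 * k).choose k

theorem tt_pos (k : ℕ) : 0 < tt k :=
  Nat.mul_pos (Nat.choose_pos (by omega)) (Nat.choose_pos (by omega))

theorem tt_fac (k : ℕ) : tt k * ((3 * k)! * (2 * k)! * k !) = (6 * k)! := by
  have h1 := Nat.choose_mul_factorial_mul_factorial (show 3 * k ≤ 6 * k by omega)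
  have h2 := Nat.choose_mul_factorial_mul_factorial (show k ≤ 3 * k by omega)
  have e1 : 6 * k - 3 * k = 3 * k := by omega
  have e2 : 3 * k - k = 2 * k := by omega
  rw [e1] at h1
  rw [e2] at h2
  unfold tt
  calc (6 * k).choose (3 * k) * (3 * k).choose k * ((3 * k)! * (2 * k)! * k !)
      = (6 * k).choose (3 * k) * (3 * k)! * ((3 * k).choose k * k ! * (2 * k)!) := by ring
    _ = (6 * k)! := by rw [h2, h1]

theorem ch_fac (n : ℕ) : (3 * n).choose n * (n ! * (2 * n)!) = (3 * n)! := by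
  have h2 := Nat.choose_mul_factorial_mul_factorial (show n ≤ 3 * n by omega)
  have e2 : 3 * n - n = 2 * n := by omega
  rw [e2] at h2
  rw [← h2]; ring

theorem ch_pos (n : ℕ) : 0 < (3 * n).choose n := Nat.choose_pos (by omega)

section val
variable (p : ℕ) [Fact p.Prime]

theorem v_tt (k : ℕ) : padicValNat p (tt k) + (padicValNat p ((3 * k)!) + padicValNat p ((2 * k)!)
    + padicValNat p (k !)) = padicValNat p ((6 * k)!) := by
  rw [← tt_fac k, padicValNat.mul (tt_pos k).ne'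
    (mul_ne_zero (mul_ne_zero (factorial_ne_zero _) (factorial_ne_zero _)) (factorial_ne_zero _)),
    padicValNat.mul (mul_ne_zero (factorial_ne_zero _) (factorial_ne_zero _)) (factorial_ne_zero _),
    padicValNat.mul (factorial_ne_zero _) (factorial_ne_zero _)]

theorem v_ch (n : ℕ) : padicValNat p ((3 * n).choose n) + (padicValNat p (n !) +
    padicValNat p ((2 * n)!)) = padicValNat p ((3 * n)!) := by
  rw [← ch_fac n, padicValNat.mul (ch_pos n).ne'
    (mul_ne_zero (factorial_ne_zero _) (factorial_ne_zero _)),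
    padicValNat.mul (factorial_ne_zero _) (factorial_ne_zero _)]

/-- in terms of digit sums -/
theorem ds_tt (k : ℕ) : (p - 1) * padicValNat p (tt k) + ds p (6 * k) =
    ds p (3 * k) + ds p (2 * k) + ds p k := by
  have h := v_tt p k
  have h1 := legendre p (6 * k)
  have h2 := legendre p (3 * k)
  have h3 := legendre p (2 * k)
  have h4 := legendre p k
  have h5 : (p - 1) * padicValNat p (tt k) + (p - 1) * padicValNat p ((3 * k)!) +
    (p - 1) * padicValNat p ((2 * k)!) + (p - 1) * padicValNat p (k !) =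
      (p - 1) * padicValNat p ((6 * k)!) := by rw [← h]; ring
  omega

theorem ds_ch (n : ℕ) : (p - 1) * padicValNat p ((3 * n).choose n) + ds p (3 * n) =
    ds p n + ds p (2 * n) := by
  have h := v_ch p n
  have h2 := legendre p (3 * n)
  have h3 := legendre p (2 * n)
  have h4 := legendre p n
  have h5 : (p - 1) * padicValNat p ((3 * n).choose n) + (p - 1) * padicValNat p (n !) +
    (p - 1) * padicValNat p ((2 * n)!)  =
      (p - 1) * padicValNat p ((3 * n)!) := by rw [← h]; ring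
  omega

end val

/-- `v_2 (t k) = 2 s_2(k)` -/
theorem v2_tt (k : ℕ) : padicValNat 2 (tt k) = 2 * ds 2 k := by
  have h := ds_tt 2 k
  have e1 : ds 2 (6 * k) = ds 2 (3 * k) := by
    rw [show 6 * k = 2 * (3 * k) by ring, ds_mul 2 _ le_rfl]
  have e2 : ds 2 (2 * k) = ds 2 k := ds_mul 2 k le_rfl
  omega

theorem v2_ch (n : ℕ) : padicValNat 2 ((3 * n).choose n) + ds 2 (3 * n) = 2 * ds 2 n := by
  have h := ds_ch 2 n
  have e2 : ds 2 (2 * n) = ds 2 n := ds_mul 2 n le_rfl
  omega

/-- `v_3 (t k) = s_3(k)` -/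
theorem v3_tt (k : ℕ) : padicValNat 3 (tt k) = ds 3 k := by
  have h := ds_tt 3 k
  have e1 : ds 3 (6 * k) = ds 3 (2 * k) := by
    rw [show 6 * k = 3 * (2 * k) by ring, ds_mul 3 _ (by norm_num)]
  have e2 : ds 3 (3 * k) = ds 3 k := ds_mul 3 k (by norm_num)
  omega

theorem v3_ch (n : ℕ) : 2 * padicValNat 3 ((3 * n).choose n) = ds 3 (2 * n) := by
  have h := ds_ch 3 n
  have e2 : ds 3 (3 * n) = ds 3 n := ds_mul 3 n (by norm_num)
  omega

/-- `(3^a - 1)/2 = 11...1` in base 3. -/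
def rep1 : ℕ → ℕ
  | 0 => 0
  | (a + 1) => 3 * rep1 a + 1

theorem rep1_eq (a : ℕ) : 2 * rep1 a + 1 = 3 ^ a := by
  induction a with
  | zero => simp [rep1]
  | succ a ih => rw [pow_succ, ← ih, rep1]; ring

theorem ds_rep1 (a : ℕ) : ds 3 (rep1 a) = a := by
  induction a with
  | zero => simp [rep1, ds_zero]
  | succ a ih => rw [rep1, ds_mul_add 3 _ 1 (by norm_num) (by norm_num), ih]; ring

theorem ds_rep1_succ (a : ℕ) : ds 3 (rep1 (a + 1) + 1) = a + 2 := by
  rw [rep1, add_assoc, ds_mul_add 3 _ 2 (by norm_num) (by norm_num), ds_rep1]; ring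

/-- The 3-adic part of the divisibility. -/
theorem v3_main (k m : ℕ) (h : 1 ≤ k + m) :
    padicValNat 3 (2 * (k + m) - 1) + padicValNat 3 ((3 * (k + m)).choose (k + m)) ≤
      padicValNat 3 (tt k) + padicValNat 3 (tt m) := by
  set n := k + m with hn
  rw [v3_tt, v3_tt]
  have hch := v3_ch n
  have hadd := ds_add_le 3 k m
  rw [← hn] at hadd
  -- s(2n) ≤ 2 s(n)
  have hd : ds 3 (2 * n) ≤ 2 * ds 3 n := by
    have := ds_add_le 3 n n
    rw [two_mul]; omega
  obtain ⟨u, hu⟩ : 3 ^ padicValNat 3 (2 * n - 1) ∣ (2 * n - 1) := pow_padicValNat_dvd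
  set a := padicValNat 3 (2 * n - 1) with ha
  rcases Nat.eq_zero_or_pos a with h0 | h0
  · omega
  obtain ⟨b, hb⟩ : ∃ b, a = b + 1 := ⟨a - 1, by omega⟩
  have hodd : Odd (3 ^ a * u) := by
    rw [← hu]
    exact ⟨n - 1, by omega⟩
  have huodd : Odd u := (Nat.odd_mul.1 hodd).2
  obtain ⟨w, hw⟩ := huodd
  -- 2n = 1 + 3^a u
  have h2n : 2 * n = 1 + 3 ^ a * u := by omega
  have hlt1 : 1 < 3 ^ a := Nat.one_lt_pow (by omega) (by norm_num)
  have hs2n : ds 3 (2 * n) = 1 + ds 3 u := by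
    rw [h2n, ds_add_pow_mul 3 (by norm_num) a 1 u hlt1]
    simp [ds]
  have hrep := rep1_eq a
  have hn' : n = (rep1 a + 1) + 3 ^ a * w := by
    have : 2 * n = 2 * ((rep1 a + 1) + 3 ^ a * w) := by
      rw [h2n, hw, ← hrep]; ring
    omega
  have hrep_pos : 1 ≤ rep1 a := by rw [hb, rep1]; omega
  have hlt2 : rep1 a + 1 < 3 ^ a := by omega
  have hsn : ds 3 n = a + 1 + ds 3 w := by
    rw [hn', ds_add_pow_mul 3 (by norm_num) a _ w hlt2, hb, ds_rep1_succ]
  have hsu : ds 3 u ≤ 2 * ds 3 w + 1 := by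
    have h1 := ds_add_le 3 w w
    have h2 := ds_add_le 3 (w + w) 1
    have h3 : ds 3 1 = 1 := by simp [ds]
    rw [hw, two_mul]
    omega
  omega

theorem fA (A : ℕ) : A / 2 + A / 3 + A / 6 ≤ A := by omega

theorem fA' (A : ℕ) (h : A % 6 ≠ 0) : A / 2 + A / 3 + A / 6 + 1 ≤ A := by omega

theorem gC (C : ℕ) : C / 2 ≤ C / 6 + C / 3 + 1 := by omega

theorem gC' (C : ℕ) (h : C % 6 = 0 ∨ C % 6 = 1 ∨ C % 6 = 3) : C / 2 ≤ C / 6 + C / 3 := by omega

theorem key0 (A B C : ℕ) (h1 : A + B ≤ C) (h2 : C ≤ A + B + 1) (hA : A % 6 = 0)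
    (hB : B % 6 = 0) : C % 6 = 0 ∨ C % 6 = 1 := by omega

theorem key1 (A B C : ℕ) (h1 : A + B ≤ C) (h2 : C ≤ A + B + 1) :
    C / 2 + (A / 2 + A / 3 + A / 6) + (B / 2 + B / 3 + B / 6) ≤ A + B + (C / 6 + C / 3) := by
  have a1 := fA A
  have b1 := fA B
  have c1 := gC C
  by_cases hA : A % 6 = 0
  · by_cases hB : B % 6 = 0
    · have c2 := gC' C (by have := key0 A B C h1 h2 hA hB; tauto)
      linarith
    · have b2 := fA' B hB
      linarith
  · have a2 := fA' A hA
    linarith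

theorem key2 (A B C : ℕ) (h1 : A + B ≤ C) (h2 : C ≤ A + B + 1) (h3 : C % 6 = 3) :
    1 + C / 2 + (A / 2 + A / 3 + A / 6) + (B / 2 + B / 3 + B / 6) ≤ A + B + (C / 6 + C / 3) := by
  have a1 := fA A
  have b1 := fA B
  have c1 := gC' C (by tauto)
  by_cases hA : A % 6 = 0
  · by_cases hB : B % 6 = 0
    · have := key0 A B C h1 h2 hA hB
      omega
    · have b2 := fA' B hB
      linarith
  · have a2 := fA' A hA
    linarith

/-- Termwise inequality. -/
theorem term_ineq (k m q : ℕ) (hq : 2 ≤ q) (hq3 : q ≠ 3) (h : 1 ≤ k + m) :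
    (if q ∣ 2 * (k + m) - 1 then 1 else 0) + 3 * (k + m) / q
      + (3 * k / q + 2 * k / q + k / q) + (3 * m / q + 2 * m / q + m / q) ≤
      6 * k / q + 6 * m / q + ((k + m) / q + 2 * (k + m) / q) := by
  have hq0 : 0 < q := by omega
  have e : ∀ x : ℕ, 3 * x / q = 6 * x / q / 2 ∧ 2 * x / q = 6 * x / q / 3 ∧
      x / q = 6 * x / q / 6 := by
    intro x
    refine ⟨?_, ?_, ?_⟩
    · rw [Nat.div_div_eq_div_mul, mul_comm q 2, show 6 * x = 2 * (3 * x) by ring,
        Nat.mul_div_mul_left _ _ (by norm_num)]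
    · rw [Nat.div_div_eq_div_mul, mul_comm q 3, show 6 * x = 3 * (2 * x) by ring,
        Nat.mul_div_mul_left _ _ (by norm_num)]
    · rw [Nat.div_div_eq_div_mul, mul_comm q 6,
        Nat.mul_div_mul_left _ _ (by norm_num)]
  obtain ⟨ek1, ek2, ek3⟩ := e k
  obtain ⟨em1, em2, em3⟩ := e m
  obtain ⟨en1, en2, en3⟩ := e (k + m)
  have hle : 6 * k / q + 6 * m / q ≤ 6 * (k + m) / q := by
    rw [mul_add]; exact Nat.div_add_div_le_add_div
  have hle2 : 6 * (k + m) / q ≤ 6 * k / q + 6 * m / q + 1 := by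
    rw [mul_add, Nat.add_div hq0]
    split_ifs <;> omega
  rw [ek1, ek2, ek3, em1, em2, em3, en1, en2, en3]
  split_ifs with hdvd
  · have hmod : 6 * (k + m) / q % 6 = 3 := by
      obtain ⟨j, hj⟩ := hdvd
      have hodd : Odd (q * j) := by rw [← hj]; exact ⟨k + m - 1, by omega⟩
      obtain ⟨hqo, hjo⟩ := Nat.odd_mul.1 hodd
      have hq4 : 3 < q := by
        obtain ⟨r, hr⟩ := hqo
        omega
      have h6 : 6 * (k + m) = q * (3 * j) + 3 := by
        have : 2 * (k + m) = q * j + 1 := by omega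
        calc 6 * (k + m) = 3 * (2 * (k + m)) := by ring
          _ = q * (3 * j) + 3 := by rw [this]; ring
      rw [h6, Nat.mul_add_div hq0, Nat.div_eq_of_lt hq4, add_zero]
      obtain ⟨i, hi⟩ := hjo
      omega
    have := key2 _ _ _ hle hle2 hmod
    linarith
  · have := key1 _ _ _ hle hle2
    linarith

theorem vp_main (p : ℕ) [hp : Fact p.Prime] (hp3 : p ≠ 3) (k m : ℕ) (h : 1 ≤ k + m) :
    padicValNat p (2 * (k + m) - 1) + padicValNat p ((3 * (k + m)).choose (k + m)) ≤
      padicValNat p (tt k) + padicValNat p (tt m) := by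
  have hc := v_ch p (k + m)
  have h1 := v_tt p k
  have h2 := v_tt p m
  have hp2 : 2 ≤ p := hp.out.two_le
  set b := Nat.log p (6 * (k + m)) + 1 with hb
  have hbb : ∀ x, x ≤ 6 * (k + m) → Nat.log p x < b := by
    intro x hx
    exact Nat.lt_succ_of_le (Nat.log_mono_right hx)
  have hpos : 0 < 2 * (k + m) - 1 := by omega
  have hv : padicValNat p (2 * (k + m) - 1) =
      ∑ i ∈ Finset.Ico 1 b, (if p ^ i ∣ 2 * (k + m) - 1 then 1 else 0) := by
    have h3 := factorization_eq_card_pow_dvd_of_lt (n := 2 * (k + m) - 1) (b := b) hp.out hpos (by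
      have := Nat.lt_pow_succ_log_self (b := p) (by omega) (6 * (k + m))
      rw [hb]
      exact lt_of_le_of_lt (by omega) this)
    rw [← Nat.factorization_def _ hp.out, h3, Finset.card_filter]
  rw [padicValNat_factorial (hbb (3 * (k + m)) (by omega)),
    padicValNat_factorial (hbb (k + m) (by omega)),
    padicValNat_factorial (hbb (2 * (k + m)) (by omega))] at hc
  rw [padicValNat_factorial (hbb (3 * k) (by omega)),
    padicValNat_factorial (hbb (2 * k) (by omega)),
    padicValNat_factorial (hbb (6 * k) (by omega)),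
    padicValNat_factorial (hbb k (by omega))] at h1
  rw [padicValNat_factorial (hbb (3 * m) (by omega)),
    padicValNat_factorial (hbb (2 * m) (by omega)),
    padicValNat_factorial (hbb (6 * m) (by omega)),
    padicValNat_factorial (hbb m (by omega))] at h2
  have hsum : ∑ i ∈ Finset.Ico 1 b, ((if p ^ i ∣ 2 * (k + m) - 1 then 1 else 0)
      + 3 * (k + m) / p ^ i + (3 * k / p ^ i + 2 * k / p ^ i + k / p ^ i)
      + (3 * m / p ^ i + 2 * m / p ^ i + m / p ^ i)) ≤
      ∑ i ∈ Finset.Ico 1 b, (6 * k / p ^ i + 6 * m / p ^ i +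
        ((k + m) / p ^ i + 2 * (k + m) / p ^ i)) := by
    apply Finset.sum_le_sum
    intro i hi
    have hi1 := (Finset.mem_Ico.1 hi).1
    apply term_ineq _ _ _ _ _ h
    · calc 2 ≤ p := hp2
        _ = p ^ 1 := (pow_one p).symm
        _ ≤ p ^ i := Nat.pow_le_pow_right (by omega) hi1
    · intro h3
      have hprime : (p ^ i).Prime := by rw [h3]; norm_num
      have hi' : i = 1 := by
        exact (Nat.Prime.eq_one_of_pow hprime)
      rw [hi', pow_one] at h3
      exact hp3 h3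
  simp only [Finset.sum_add_distrib] at hsum
  rw [← hv] at hsum
  omega

/-- The divisibility of each summand. -/
theorem dvd_main (k m : ℕ) (h : 1 ≤ k + m) :
    (2 * (k + m) - 1) * (3 * (k + m)).choose (k + m) ∣ tt k * tt m := by
  have hA : (2 * (k + m) - 1) * (3 * (k + m)).choose (k + m) ≠ 0 :=
    mul_ne_zero (by omega) (ch_pos _).ne'
  have hB : tt k * tt m ≠ 0 := mul_ne_zero (tt_pos k).ne' (tt_pos m).ne'
  rw [← Nat.factorization_prime_le_iff_dvd hA hB]
  intro p hp
  have : Fact p.Prime := ⟨hp⟩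
  rw [Nat.factorization_def _ hp, Nat.factorization_def _ hp,
    padicValNat.mul (by omega) (ch_pos _).ne', padicValNat.mul (tt_pos k).ne' (tt_pos m).ne']
  by_cases h3 : p = 3
  · subst h3
    exact v3_main k m h
  · exact vp_main p h3 k m h

end Pool.Agent.Helper42_Binom
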