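import Mathlib
import Pool.Agent.Helper42_Binom.Val

set_option autoImplicit false

namespace Pool.Agent.Helper42_Binom

open Nat

/-- the quotient `t_k t_m / ((2n-1) binom(3n,n))` -/
def cc (k m : ℕ) : ℕ := tt k * tt m / ((2 * (k + m) - 1) * (3 * (k + m)).choose (k + m))

theorem cc_mul (k m : ℕ) (h : 1 ≤ k + m) :
    cc k m * ((2 * (k + m) - 1) * (3 * (k + m)).choose (k + m)) = tt k * tt m :=
  Nat.div_mul_cancel (dvd_main k m h)

theorem cc_pos (k m : ℕ) (h : 1 ≤ k + m) : cc k m ≠ 0 := by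
  intro h0
  have := cc_mul k m h
  rw [h0, zero_mul] at this
  exact (mul_ne_zero (tt_pos k).ne' (tt_pos m).ne') this.symm

theorem cc_symm (k m : ℕ) : cc k m = cc m k := by
  unfold cc
  rw [mul_comm, add_comm m k]

/-- valuation of `cc`. -/
theorem v2_cc (k m : ℕ) (h : 1 ≤ k + m) :
    padicValNat 2 (cc k m) = 2 * padicValNat 2 ((k + m).choose k) + ds 2 (3 * (k + m)) := by
  have h1 := cc_mul k m h
  have h2 : padicValNat 2 (cc k m * ((2 * (k + m) - 1) * (3 * (k + m)).choose (k + m))) =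
      padicValNat 2 (tt k * tt m) := by rw [h1]
  rw [padicValNat.mul (cc_pos k m h) (mul_ne_zero (by omega) (ch_pos _).ne'),
    padicValNat.mul (by omega) (ch_pos _).ne', padicValNat.mul (tt_pos k).ne' (tt_pos m).ne',
    v2_tt, v2_tt] at h2
  have h3 : padicValNat 2 (2 * (k + m) - 1) = 0 := by
    apply padicValNat.eq_zero_of_not_dvd
    omega
  have h4 := v2_ch (k + m)
  have h5 := ds_choose 2 k m
  omega

theorem dvd_of_v2 (x j : ℕ) (h : j ≤ padicValNat 2 x) : 2 ^ j ∣ x :=
  (pow_dvd_pow 2 h).trans pow_padicValNat_dvd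

theorem mod_of_v2 (x j : ℕ) (hx : x ≠ 0) (h : padicValNat 2 x = j) : x % 2 ^ (j + 1) = 2 ^ j := by
  obtain ⟨u, hu⟩ : 2 ^ j ∣ x := dvd_of_v2 x j h.ge
  have hodd : ¬ 2 ∣ u := by
    rintro ⟨w, hw⟩
    have : 2 ^ (j + 1) ∣ x := ⟨w, by rw [hu, hw, pow_succ]; ring⟩
    rw [padicValNat_dvd_iff_le hx, h] at this
    omega
  have hu1 : u % 2 = 1 := by omega
  rw [hu, pow_succ, Nat.mul_mod_mul_left, hu1, mul_one]

/-- Pairing lemma in `ZMod 16`. -/
theorem pair_sum (n : ℕ) (f : ℕ → ZMod 16) (hs : ∀ k ≤ n, f k = f (n - k))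
    (h8 : ∀ k ≤ n, f k + f k = 0) (hm : ∀ m, n = 2 * m → f m = 0) :
    ∑ k ∈ Finset.range (n + 1), f k = 0 := by
  apply Finset.sum_involution (fun k _ => n - k)
  · intro a ha
    have ha' : a ≤ n := Nat.lt_succ_iff.1 (Finset.mem_range.1 ha)
    rw [← hs a ha', h8 a ha']
  · intro a ha hne heq
    have ha' : a ≤ n := Nat.lt_succ_iff.1 (Finset.mem_range.1 ha)
    apply hne
    apply hm a
    omega
  · intro a ha
    exact Finset.mem_range.2 (by omega)
  · intro a ha
    have ha' : a ≤ n := Nat.lt_succ_iff.1 (Finset.mem_range.1 ha)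
    show n - (n - a) = a
    omega

theorem ds_three_mul (n : ℕ) (hn : 1 ≤ n) : 2 ≤ ds 2 (3 * n) := by
  have h1 := ds_pos 2 (3 * n) le_rfl (by omega)
  have h2 : ds 2 (3 * n) ≠ 1 := by
    rw [Ne, ds_two_eq_one]
    rintro ⟨j, hj⟩
    have : 3 ∣ 2 ^ j := ⟨n, hj.symm⟩
    have := Nat.Prime.dvd_of_dvd_pow (by norm_num) this
    omega
  omega

theorem zmod16_of_mod (x y : ℕ) (h : x % 16 = y % 16) : (x : ZMod 16) = (y : ZMod 16) :=
  (ZMod.natCast_eq_natCast_iff' x y 16).2 h

theorem zmod16_double (x : ℕ) (h : 8 ∣ x) : (x : ZMod 16) + (x : ZMod 16) = 0 := by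
  obtain ⟨y, rfl⟩ := h
  have : ((8 * y : ℕ) : ZMod 16) + ((8 * y : ℕ) : ZMod 16) = ((16 * y : ℕ) : ZMod 16) := by
    push_cast; ring
  rw [this]
  exact (ZMod.natCast_eq_zero_iff _ _).2 (Dvd.intro _ rfl)

theorem central (m : ℕ) : padicValNat 2 ((m + m).choose m) = ds 2 m := by
  have h := ds_choose 2 m m
  have h1 : ds 2 (m + m) = ds 2 m := by rw [← two_mul, ds_mul 2 m le_rfl]
  omega

/-- The total `A n = a(n)` as a natural number. -/
def AA (n : ℕ) : ℕ := ∑ k ∈ Finset.range (n + 1), cc k (n - k)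

/-- Case `s_2(3n) ≥ 3`. -/
theorem AA_case3 (n : ℕ) (hn : 1 ≤ n) (h3 : 3 ≤ ds 2 (3 * n)) : ((AA n : ℕ) : ZMod 16) = 0 := by
  unfold AA
  rw [Nat.cast_sum]
  apply pair_sum n (fun k => ((cc k (n - k) : ℕ) : ZMod 16))
  · intro k hk
    show ((cc k (n - k) : ℕ) : ZMod 16) = ((cc (n - k) (n - (n - k)) : ℕ) : ZMod 16)
    rw [show n - (n - k) = k by omega, cc_symm]
  · intro k hk
    apply zmod16_double
    apply dvd_of_v2 _ 3
    rw [v2_cc k (n - k) (by omega), show k + (n - k) = n by omega]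
    omega
  · intro m hm
    show ((cc m (n - m) : ℕ) : ZMod 16) = 0
    rw [ZMod.natCast_eq_zero_iff]
    apply dvd_of_v2 _ 4
    rw [show n - m = m by omega, v2_cc m m (by omega), central]
    have := ds_pos 2 m le_rfl (by omega)
    rw [show m + m = n by omega]
    omega

/-- Case `s_2(3n) = 2`: compare with `4 binom(n,k)`. -/
theorem AA_case2 (n : ℕ) (hn : 2 ≤ n) (h3 : ds 2 (3 * n) = 2) :
    ((AA n : ℕ) : ZMod 16) = if n % 2 = 0 ∧ ds 2 n = 1 then 8 else 0 := by
  -- f k = c_k + 12 binom(n,k) - [n = 2k] * (value)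
  set g : ℕ → ℕ := fun k => cc k (n - k) + 12 * n.choose k with hg
  have hg8 : ∀ k ≤ n, 8 ∣ g k := by
    intro k hk
    have hv := v2_cc k (n - k) (by omega)
    rw [show k + (n - k) = n by omega, h3] at hv
    show 8 ∣ cc k (n - k) + 12 * n.choose k
    rcases Nat.eq_zero_or_pos (padicValNat 2 (n.choose k)) with h0 | h0
    · have m1 := mod_of_v2 _ _ (cc_pos k (n - k) (by omega)) hv
      rw [h0] at m1
      have m2 := mod_of_v2 _ _ (Nat.choose_pos hk).ne' h0
      norm_num at m1 m2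
      omega
    · have d1 : 2 ^ 4 ∣ cc k (n - k) := dvd_of_v2 _ 4 (by omega)
      have d2 : 2 ^ 1 ∣ n.choose k := dvd_of_v2 _ 1 (by omega)
      omega
  have hsum : ∑ k ∈ Finset.range (n + 1), g k = AA n + 12 * 2 ^ n := by
    rw [hg]
    simp only [Finset.sum_add_distrib, ← Finset.mul_sum, Nat.sum_range_choose]
    rfl
  have h16 : ((12 * 2 ^ n : ℕ) : ZMod 16) = 0 := by
    rw [ZMod.natCast_eq_zero_iff]
    obtain ⟨r, rfl⟩ : ∃ r, n = r + 2 := ⟨n - 2, by omega⟩
    exact ⟨3 * 2 ^ r, by rw [pow_add]; ring⟩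
  have hcast : ((AA n : ℕ) : ZMod 16) = ∑ k ∈ Finset.range (n + 1), (g k : ZMod 16) := by
    rw [← Nat.cast_sum, hsum, Nat.cast_add, h16, add_zero]
  rw [hcast]
  rcases Nat.even_or_odd' n with ⟨m, hm | hm⟩
  · -- n = 2m
    have hgm : ((g m : ℕ) : ZMod 16) = if ds 2 n = 1 then 8 else 0 := by
      have hv := v2_cc m (n - m) (by omega)
      rw [show m + (n - m) = n by omega, h3] at hv
      have hcen := central m
      rw [show m + m = n by omega] at hcen
      have hds : ds 2 n = ds 2 m := by rw [hm, ds_mul 2 m le_rfl]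
      have hp := ds_pos 2 m le_rfl (by omega)
      have d1 : 2 ^ 4 ∣ cc m (n - m) := dvd_of_v2 _ 4 (by omega)
      split_ifs with h1
      · have m2 := mod_of_v2 _ 1 (Nat.choose_pos (show m ≤ n by omega)).ne' (by omega)
        apply zmod16_of_mod (g m) 8
        show (cc m (n - m) + 12 * n.choose m) % 16 = 8 % 16
        norm_num at m2
        omega
      · have d2 : 2 ^ 2 ∣ n.choose m := dvd_of_v2 _ 2 (by omega)
        apply (ZMod.natCast_eq_zero_iff _ _).2
        show 16 ∣ cc m (n - m) + 12 * n.choose m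
        omega
    have hmod : n % 2 = 0 := by omega
    simp only [hmod, true_and]
    rw [← hgm]
    -- subtract the middle term
    set f : ℕ → ZMod 16 := fun k => if k = m then 0 else (g k : ZMod 16) with hf
    have hz : ∑ k ∈ Finset.range (n + 1), f k = 0 := by
      apply pair_sum n f
      · intro k hk
        simp only [hf]
        have hkm : (k = m) ↔ (n - k = m) := by omega
        by_cases h : k = m
        · rw [if_pos h, if_pos (hkm.1 h)]
        · rw [if_neg h, if_neg (fun h' => h (hkm.2 h'))]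
          simp only [hg]
          rw [show n - (n - k) = k by omega, cc_symm, Nat.choose_symm hk]
      · intro k hk
        simp only [hf]
        split_ifs with h
        · simp
        · exact zmod16_double _ (hg8 k hk)
      · intro m' hm'
        have : m' = m := by omega
        simp [hf, this]
    have hmem : m ∈ Finset.range (n + 1) := Finset.mem_range.2 (by omega)
    rw [← Finset.add_sum_erase _ _ hmem] at hz ⊢
    have hfm : f m = 0 := by simp [hf]
    rw [hfm, zero_add] at hz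
    have heq : ∑ k ∈ (Finset.range (n + 1)).erase m, f k =
        ∑ k ∈ (Finset.range (n + 1)).erase m, (g k : ZMod 16) := by
      apply Finset.sum_congr rfl
      intro k hk
      simp only [hf]
      rw [if_neg (Finset.ne_of_mem_erase hk)]
    rw [← heq, hz, add_zero]
  · -- n odd
    have hmod : ¬ (n % 2 = 0 ∧ ds 2 n = 1) := by
      rintro ⟨h, _⟩; omega
    rw [if_neg hmod]
    apply pair_sum n (fun k => (g k : ZMod 16))
    · intro k hk
      show ((g k : ℕ) : ZMod 16) = ((g (n - k) : ℕ) : ZMod 16)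
      simp only [hg]
      rw [show n - (n - k) = k by omega, cc_symm, Nat.choose_symm hk]
    · intro k hk
      exact zmod16_double _ (hg8 k hk)
    · intro m' hm'
      omega

theorem AA_one : AA 1 = 40 := by decide +kernel

theorem ds_three_pow (j : ℕ) : ds 2 (3 * 2 ^ j) = 2 := by
  have := ds_add_pow_mul 2 le_rfl j 0 3 (by positivity)
  rw [zero_add, ds_zero, zero_add] at this
  rw [mul_comm, this]
  simp [ds]

open Classical in
/-- `a(n) ≡ 8 mod 16` for powers of two, `a(n) ≡ 0 mod 16` otherwise. -/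
theorem AA_main (n : ℕ) (hn : 1 ≤ n) :
    AA n % 16 = if (∃ j : ℕ, n = 2 ^ j) then 8 else 0 := by
  rcases Nat.lt_or_ge n 2 with h2 | h2
  · have : n = 1 := by omega
    subst this
    rw [AA_one, if_pos ⟨0, by simp⟩]
  · rcases Nat.lt_or_ge (ds 2 (3 * n)) 3 with h3 | h3
    · have h3' : ds 2 (3 * n) = 2 := by
        have := ds_three_mul n hn
        omega
      have h := AA_case2 n h2 h3'
      by_cases hp : ∃ j : ℕ, n = 2 ^ j
      · rw [if_pos hp]
        have hds := (ds_two_eq_one n).2 hp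
        obtain ⟨j, hj⟩ := hp
        have hj0 : j ≠ 0 := by
          rintro rfl
          simp at hj
          omega
        obtain ⟨i, rfl⟩ : ∃ i, j = i + 1 := ⟨j - 1, by omega⟩
        have hev : n % 2 = 0 := by rw [hj, pow_succ]; omega
        rw [if_pos ⟨hev, hds⟩] at h
        have h' : ((AA n : ℕ) : ZMod 16) = ((8 : ℕ) : ZMod 16) := by rw [h]; rfl
        have := (ZMod.natCast_eq_natCast_iff' _ _ _).1 h'
        omega
      · rw [if_neg hp]
        have hds : ds 2 n ≠ 1 := fun h' => hp ((ds_two_eq_one n).1 h')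
        rw [if_neg (fun h' => hds h'.2)] at h
        have := (ZMod.natCast_eq_zero_iff _ _).1 h
        omega
    · have h := AA_case3 n hn h3
      have hp : ¬ ∃ j : ℕ, n = 2 ^ j := by
        rintro ⟨j, rfl⟩
        rw [ds_three_pow] at h3
        omega
      rw [if_neg hp]
      have := (ZMod.natCast_eq_zero_iff _ _).1 h
      omega

end Pool.Agent.Helper42_Binom
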